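import Mathlib

namespace Pool.Agent.Results.MP_71d783_pr.Chain

open MeasureTheory ProbabilityTheory Filter Set
open scoped symmDiff

/-- iid uniform labels -/
noncomputable def iid (V : Type) : Measure (V → unitInterval) := Measure.infinitePi fun _ => volume

/-- A decoration with property `P` (encoded as a function on ordered pairs of vertices) exists as a
factor of iid; equivariance under each automorphism is required for `F`-most label vectors. -/
def Fiid {V β : Type} [MeasurableSpace β] (G : SimpleGraph V) (F : Filter (V → unitInterval))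
    (P : (V → V → β) → Prop) : Prop :=
  ∃ Φ : (V → unitInterval) → V → V → β, Measurable Φ ∧
    (∀ g : G ≃g G, ∀ᶠ ω in F, ∀ x y, Φ (ω ∘ g.symm) (g x) (g y) = Φ ω x y) ∧
    ∀ᵐ ω ∂iid V, P (Φ ω)

/-- `M x y` means that the edge `xy` is in the perfect matching -/
def PM {V : Type} (G : SimpleGraph V) (M : V → V → Bool) : Prop :=
  (∀ x y, M x y → G.Adj x y ∧ M y x) ∧ ∀ x, ∃! y, M x y

/-- `O x y` means that the edge `xy` is oriented from `x` to `y` -/
def Balanced {V : Type} (G : SimpleGraph V) (d : ℕ) (O : V → V → Bool) : Prop :=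
  (∀ x y, O x y → G.Adj x y) ∧ (∀ x y, G.Adj x y → (O x y ↔ ¬ O y x)) ∧
    ∀ x, {y | O x y}.ncard = d ∧ {y | O y x}.ncard = d

/-- `S x y = k + 1` means that the edge `xy` has colour `k` and is oriented from `x` to `y`,
`S x y = 0` that `x → y` is not an oriented edge -/
def Schreier {V : Type} (G : SimpleGraph V) (d : ℕ) (S : V → V → Fin (d + 1)) : Prop :=
  (∀ x y, S x y ≠ 0 → G.Adj x y) ∧ (∀ x y, G.Adj x y → (S x y ≠ 0 ↔ S y x = 0)) ∧
    ∀ x (k : Fin d), (∃! y, S x y = k.succ) ∧ ∃! y, S y x = k.succ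

instance (V : Type) : IsProbabilityMeasure (iid V) := by unfold iid; infer_instance

lemma indep_sub {ι α γ : Type} (f : α → ι) (g : γ → ι) (h : ∀ a c, f a ≠ g c) :
    IndepFun (fun (ω : ι → unitInterval) a => ω (f a)) (fun ω c => ω (g c)) (iid ι) := by
  have hi := iIndepFun_infinitePi (P := fun _ : ι => (volume : Measure unitInterval))
    (X := fun _ (x : unitInterval) => x) (fun _ => measurable_id)
  rw [iIndepFun_iff_iIndep] at hi
  have hd : Disjoint (range f) (range g) := by
    rw [Set.disjoint_left]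
    rintro _ ⟨a, rfl⟩ ⟨c, hc⟩
    exact h a c hc.symm
  have h2 := indep_iSup_of_disjoint (fun i => (measurable_pi_apply i).comap_le) hi hd
  rw [IndepFun_iff_Indep]
  refine indep_of_indep_of_le h2 ?_ ?_
  · rw [MeasurableSpace.pi, MeasurableSpace.comap_iSup]
    refine iSup_le fun a => ?_
    rw [MeasurableSpace.comap_comp]
    exact le_iSup₂_of_le (f a) ⟨a, rfl⟩ le_rfl
  · rw [MeasurableSpace.pi, MeasurableSpace.comap_iSup]
    refine iSup_le fun a => ?_
    rw [MeasurableSpace.comap_comp]
    exact le_iSup₂_of_le (g a) ⟨a, rfl⟩ le_rfl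

lemma mp {ι : Type} (T : ι → ι) (hT : T.Injective) :
    MeasurePreserving (fun ω : ι → unitInterval => ω ∘ T) (iid ι) (iid ι) :=
  ⟨by fun_prop, Measure.map_infinitePi_infinitePi_of_inj
    (P := fun _ => (volume : Measure unitInterval)) (f := T) hT⟩

lemma not_half {ι : Type} {A : Set (ι → unitInterval)} (hA : MeasurableSet A)
    (h : ∀ s : Finset ι, ∃ T : ι → ι, T.Injective ∧ (∀ a ∈ s, ∀ b ∈ s, a ≠ T b) ∧
      (fun ω => ω ∘ T) ⁻¹' A =ᵐ[iid ι] A) : (iid ι).real A ≠ 1 / 2 := by
  intro h2
  obtain ⟨t, ht, hε⟩ := exists_measure_symmDiff_lt_of_generateFrom_isSetRing (μ := iid ι)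
    isSetRing_measurableCylinders ⟨{univ}, by simp, singleton_subset_iff.2 (univ_mem_measurableCylinders _), by simp⟩
    generateFrom_measurableCylinders.symm hA (ε := ENNReal.ofReal (1 / 100)) (by simp)
  have hm := MeasurableSet.of_mem_measurableCylinders ht
  obtain ⟨s, S, hS, rfl⟩ := (mem_measurableCylinders _).1 ht
  obtain ⟨T, hT, hs, hA'⟩ := h s
  set t := cylinder (α := fun _ => unitInterval) s S
  set t' := (fun ω : ι → unitInterval => ω ∘ T) ⁻¹' t
  have e1 : (iid ι).real (t ∆ A) ≤ 1 / 100 := ENNReal.toReal_le_of_le_ofReal (by norm_num) hε.le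
  have e2 : (iid ι).real (t' ∆ A) = (iid ι).real (t ∆ A) := by
    rw [← (mp T hT).measureReal_preimage (hm.symmDiff hA).nullMeasurableSet, preimage_symmDiff]
    exact measureReal_congr ((EventuallyEq.refl _ _).symmDiff hA'.symm)
  have e3 : (iid ι).real (t ∩ t') = (iid ι).real t * (iid ι).real t := by
    have := (indep_sub (fun a : s => a.1) (fun a : s => T a.1)
      fun a b => hs _ a.2 _ b.2).measure_inter_preimage_eq_mul S S hS hS
    have e : iid ι t' = iid ι t := (mp T hT).measure_preimage hm.nullMeasurableSet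
    rw [measureReal_def, measureReal_def, ← ENNReal.toReal_mul]
    congr 1
    rw [← e]
    nth_rewrite 1 [e]
    exact this
  have e4 : (iid ι).real A ≤ (iid ι).real (t ∩ t') + (iid ι).real (t ∆ A) + (iid ι).real (t' ∆ A) := by
    refine le_trans (measureReal_mono ?_) ((measureReal_union_le _ _).trans
      (add_le_add (measureReal_union_le _ _) le_rfl))
    intro x hx
    simp only [mem_union, mem_inter_iff, mem_symmDiff]
    tauto
  have e5 : (iid ι).real t ≤ (iid ι).real A + (iid ι).real (t ∆ A) := by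
    refine le_trans (measureReal_mono ?_) (measureReal_union_le _ _)
    intro x hx
    simp only [mem_union, mem_symmDiff]
    tauto
  have e6 : 0 ≤ (iid ι).real t := measureReal_nonneg
  nlinarith

abbrev V := ℤ × Bool × Fin 4

def ext : V → V
  | (n, s, i) => if i = 0 then (if s then n + 1 else n - 1, !s, i) else (n, !s, i)

lemma ext_ext (x : V) : ext (ext x) = x := by
  obtain ⟨n, s, i⟩ := x
  by_cases h : i = 0 <;> cases s <;> simp [ext, h]

def G : SimpleGraph V where
  Adj x y := (x.1 = y.1 ∧ x.2.1 = y.2.1 ∧ x.2.2 ≠ y.2.2) ∨ y = ext x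
  symm := ⟨fun x y h => h.imp (fun h => ⟨h.1.symm, h.2.1.symm, h.2.2.symm⟩)
    fun h => by rw [h, ext_ext]⟩
  loopless := ⟨fun x h => by
    obtain ⟨n, s, i⟩ := x
    by_cases h' : i = 0 <;> cases s <;> simp [ext, h'] at h⟩

lemma ext_s (x : V) : (ext x).2.1 = !x.2.1 ∧ (ext x).2.2 = x.2.2 := by
  obtain ⟨n, s, i⟩ := x
  by_cases h : i = 0 <;> simp [ext, h]

lemma ext_iff (x y : V) : y = ext x ↔ G.Adj x y ∧ ∀ z, ¬ (G.Adj x z ∧ G.Adj y z) := by
  constructor
  · rintro rfl
    refine ⟨Or.inr rfl, ?_⟩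
    rintro z ⟨h1 | rfl, h2 | h2⟩
    · have := (ext_s x).1; rw [h2.2.1, h1.2.1] at this; simp at this
    · rw [ext_ext] at h2; exact h1.2.2 (by rw [h2])
    · exact h2.2.2 rfl
    · have := (ext_s x).1; rw [h2, ext_ext] at this; simp at this
  · rintro ⟨h | h, h'⟩
    · obtain ⟨k, h1, h2⟩ : ∃ k, x.2.2 ≠ k ∧ y.2.2 ≠ k := by
        generalize x.2.2 = a, y.2.2 = b; revert a b; decide
      exact absurd ⟨Or.inl ⟨rfl, rfl, h1⟩, Or.inl ⟨h.1.symm, h.2.1.symm, h2⟩⟩
        (h' (x.1, x.2.1, k))
    · exact h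

def iso (e : V ≃ V) (h1 : ∀ x, e (ext x) = ext (e x))
    (h2 : ∀ x y, ((e x).1 = (e y).1 ∧ (e x).2.1 = (e y).2.1 ∧ (e x).2.2 ≠ (e y).2.2) ↔
      (x.1 = y.1 ∧ x.2.1 = y.2.1 ∧ x.2.2 ≠ y.2.2)) : G ≃g G :=
  ⟨e, fun {x y} => or_congr (h2 x y) (by rw [← h1]; exact e.injective.eq_iff)⟩

def sh (k : ℤ) : G ≃g G :=
  iso ((Equiv.addRight k).prodCongr (Equiv.refl _)) (by
    rintro ⟨n, s, i⟩
    by_cases h : i = 0 <;> cases s <;> simp [ext, h] <;> ring) (by simp)

def refl : G ≃g G :=
  iso (Function.Involutive.toPerm (fun x : V => (1 - x.1, !x.2.1, x.2.2)) fun x => by simp) (by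
    rintro ⟨n, s, i⟩
    by_cases h : i = 0 <;> cases s <;> simp [ext, h] <;> ring) (by simp)

def nb (x : V) : Finset V :=
  insert (ext x) ((Finset.univ.erase x.2.2).image fun k => (x.1, x.2.1, k))

lemma mem_nb (x y : V) : y ∈ nb x ↔ G.Adj x y := by
  obtain ⟨n, s, i⟩ := x
  obtain ⟨m, t, j⟩ := y
  simp only [nb, G, Finset.mem_insert, Finset.mem_image, Finset.mem_erase, Finset.mem_univ,
    Prod.mk.injEq]
  aesop

lemma sum_nb (x : V) (f : V → ℤ) :
    ∑ y ∈ nb x, f y = f (ext x) + ∑ k, if k = x.2.2 then 0 else f (x.1, x.2.1, k) := by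
  rw [nb, Finset.sum_insert, Finset.sum_image (by intro a _ b _ h; simpa using h)]
  · congr 1
    rw [← Finset.filter_ne', Finset.sum_filter]
    simp
  · simp only [Finset.mem_image, not_exists, not_and]
    intro k _ h
    have := (ext_s x).1
    simp [← h] at this

lemma flow {O : V → V → Bool} (h : Balanced G 2 O) (n : ℤ) :
    O (n, true, 0) (n + 1, false, 0) = O (0, true, 0) (1, false, 0) := by
  let o : V → V → ℤ := fun x y => if O x y then 1 else 0
  have h1 : ∀ x y, G.Adj x y → o x y + o y x = 1 := fun x y hxy => by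
    have := h.2.1 x y hxy
    by_cases h' : O y x <;> simp_all [o]
  have h2 : ∀ x, ∑ y ∈ nb x, o x y = 2 := fun x => by
    have := (h.2.2 x).1
    have e : {y | O x y} = ↑((nb x).filter fun y => O x y) := by
      ext y; simpa [mem_nb] using h.1 x y
    rw [e, ncard_coe_finset] at this
    simp [o, this]
  have h3 : ∀ n s, ∑ i, o (n, s, i) (ext (n, s, i)) = 2 := fun n s => by
    have a := fun i => (sum_nb (n, s, i) (o (n, s, i))).symm.trans (h2 _)
    have b := fun i j (hij : i ≠ j) => h1 (n, s, i) (n, s, j) (Or.inl ⟨rfl, rfl, hij⟩)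
    have a0 := a 0; have a1 := a 1; have a2 := a 2; have a3 := a 3
    simp [Fin.sum_univ_four] at a0 a1 a2 a3 ⊢
    linarith [b 0 1 (by simp), b 0 2 (by simp), b 0 3 (by simp), b 1 2 (by simp), b 1 3 (by simp),
      b 2 3 (by simp)]
  have h4 : ∀ n, o (n, true, 0) (n + 1, false, 0) = o (n - 1, true, 0) (n, false, 0) := fun n => by
    have a := h3 n true
    have b := h3 n false
    have c := fun i => h1 (n, false, i) _ (Or.inr rfl)
    have c0 := c 0; have c1 := c 1; have c2 := c 2; have c3 := c 3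
    simp [Fin.sum_univ_four, ext] at a b c0 c1 c2 c3
    linarith
  have h5 : ∀ n, O (n, true, 0) (n + 1, false, 0) = O (n - 1, true, 0) (n, false, 0) := fun n => by
    have := h4 n
    simp only [o] at this
    split_ifs at this <;> simp_all
  induction n using Int.induction_on with
  | zero => simp
  | succ k ih => rw [h5, add_sub_cancel_right, ih]
  | pred k ih => rw [← ih, h5 (-k), sub_add_cancel]

lemma no_bal : ¬ Fiid G (ae (iid V)) (Balanced G 2) := by
  rintro ⟨Φ, hm, he, hb⟩
  let A := {ω | Φ ω (0, true, 0) (1, false, 0) = true}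
  have hA : MeasurableSet A :=
    ((measurable_pi_apply _).comp ((measurable_pi_apply _).comp hm)) (measurableSet_singleton true)
  refine not_half hA (fun s => ?_) ?_
  · obtain ⟨N, hN⟩ := (s.image fun x => |x.1|).bddAbove
    have hN' : ∀ a ∈ s, |a.1| ≤ N := fun a ha => hN (Finset.mem_image_of_mem _ ha)
    refine ⟨(sh (-(2 * N + 1))).symm, RelIso.injective _, fun a ha b hb e => ?_, ?_⟩
    · have h1 := abs_le.1 (hN' a ha)
      have h2 := abs_le.1 (hN' b hb)
      have h3 : a.1 = b.1 - -(2 * N + 1) := by rw [e]; rfl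
      omega
    · filter_upwards [he (sh (-(2 * N + 1))), hb] with ω h1 h2
      have := h1 (2 * N + 1, true, 0) (2 * N + 1 + 1, false, 0)
      rw [flow h2] at this
      have e1 : sh (-(2 * N + 1)) (2 * N + 1, true, 0) = (0, true, 0) := by simp [sh, iso]
      have e2 : sh (-(2 * N + 1)) (2 * N + 1 + 1, false, 0) = (1, false, 0) := by simp [sh, iso]
      rw [e1, e2] at this
      exact congrArg (· = true) this
  · have h1 : (fun ω => ω ∘ refl.symm) ⁻¹' A =ᵐ[iid V] (Aᶜ : Set _) := by
      filter_upwards [he refl, hb] with ω h1 h2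
      have h3 : Φ (ω ∘ refl.symm) (0, true, 0) (1, false, 0) = _ := h1 (1, false, 0) (0, true, 0)
      have h4 := h2.2.1 (1, false, 0) (0, true, 0) (Or.inr (by simp [ext]))
      exact propext ((iff_of_eq (congrArg (· = true) h3)).trans h4)
    have h2 := (mp _ (RelIso.injective refl.symm)).measureReal_preimage hA.nullMeasurableSet
    rw [measureReal_congr h1, probReal_compl_eq_one_sub hA] at h2
    linarith

lemma bal_of {W : Type} {H : SimpleGraph W} {d : ℕ} {S : W → W → Fin (d + 1)}
    (h : Schreier H d S) : Balanced H d fun x y => decide (S x y ≠ 0) := by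
  have key : ∀ f : W → Fin (d + 1), (∀ k : Fin d, ∃! y, f y = k.succ) →
      {y | decide (f y ≠ 0) = true}.ncard = d := by
    intro f hf
    choose g h1 h2 using hf
    have : {y | decide (f y ≠ 0) = true} = range g := by
      ext y
      simp only [mem_ofPred_eq, decide_eq_true_eq]
      refine ⟨fun hy => ?_, ?_⟩
      · obtain ⟨k, hk⟩ := Fin.exists_succ_eq.2 hy
        exact ⟨k, (h2 k y hk.symm).symm⟩
      · rintro ⟨k, rfl⟩
        rw [h1]; exact Fin.succ_ne_zero _
    rw [this, ncard_range_of_injective fun a b e => Fin.succ_injective _ (by rw [← h1, e, h1])]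
    simp
  exact ⟨fun x y => by simpa using h.1 x y, fun x y hxy => by simpa using h.2.1 x y hxy,
    fun x => ⟨key _ fun k => (h.2.2 x k).1, key (S · x) fun k => (h.2.2 x k).2⟩⟩

theorem result : ∃ (V : Type) (_ : Countable V) (G : SimpleGraph V), G.Connected ∧
    (∀ x, (G.neighborSet x).ncard = 2 * 2) ∧ (∃ s : Finset V, ∀ x, ∃ g : G ≃g G, g x ∈ s) ∧
    Fiid G ⊤ (PM G) ∧ ¬ Fiid G (ae (iid V)) (Schreier G 2) ∧
    ¬ Fiid G (ae (iid V)) (Balanced G 2) := by
  refine ⟨V, inferInstance, G, ?_, fun x => ?_, ⟨Finset.univ.image fun p => (0, p), fun x => ?_⟩,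
    ⟨fun _ x y => decide (y = ext x), measurable_const, fun g => ?_, ?_⟩, ?_, no_bal⟩
  · have h1 : ∀ n s i j, G.Reachable (n, s, i) (n, s, j) := fun n s i j => by
      by_cases h : i = j
      · rw [h]
      · exact SimpleGraph.Adj.reachable (Or.inl ⟨rfl, rfl, h⟩)
    have h2 : ∀ n, G.Reachable (n, false, 1) (n, true, 1) := fun n =>
      SimpleGraph.Adj.reachable (Or.inr (by simp [ext]))
    have h3 : ∀ n, G.Reachable (n, false, 1) (n + 1, false, 1) := fun n =>
      (((h2 n).trans (h1 n _ _ 0)).trans (SimpleGraph.Adj.reachable (Or.inr (by simp [ext])))).trans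
        (h1 _ _ 0 _)
    have h4 : ∀ n, G.Reachable (0, false, 1) (n, false, 1) := fun n => by
      induction n using Int.induction_on with
      | zero => rfl
      | succ k ih => exact ih.trans (h3 _)
      | pred k ih => exact ih.trans (by simpa using (h3 (-k - 1)).symm)
    refine (SimpleGraph.connected_iff_exists_forall_reachable _).2 ⟨(0, false, 1), ?_⟩
    rintro ⟨n, _ | _, i⟩
    · exact (h4 n).trans (h1 _ _ _ _)
    · exact ((h4 n).trans (h2 n)).trans (h1 _ _ _ _)
  · have : G.neighborSet x = nb x := by ext y; simp [mem_nb]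
    have h := sum_nb x fun _ => 1
    rw [this, ncard_coe_finset]
    generalize x.2.2 = i at h
    have h' : ∀ i : Fin 4, (∑ k, if k = i then 0 else 1 : ℤ) = 3 := by decide
    rw [h'] at h
    simp at h
    omega
  · exact ⟨sh (-x.1), by simp [sh, iso, Prod.ext_iff]⟩
  · refine Eventually.of_forall fun ω x y => ?_
    simp only [ext_iff, decide_eq_decide]
    rw [g.surjective.forall]
    simp only [g.map_adj_iff]
  · refine Eventually.of_forall fun ω => ⟨fun x y h => ?_, fun x => by simp⟩
    obtain rfl : y = ext x := by simpa using h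
    exact ⟨Or.inr rfl, by simp [ext_ext]⟩
  · rintro ⟨Φ, hm, he, hb⟩
    refine no_bal ⟨fun ω x y => decide (Φ ω x y ≠ 0), ?_, fun g => ?_, hb.mono fun ω => bal_of⟩
    · refine measurable_pi_lambda _ fun x => measurable_pi_lambda _ fun y => ?_
      exact (measurable_of_countable fun k : Fin 3 => decide (k ≠ 0)).comp
        ((measurable_pi_apply y).comp ((measurable_pi_apply x).comp hm))
    · exact (he g).mono fun ω h x y => by simp only [h x y]

end Pool.Agent.Results.MP_71d783_pr.Chain
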